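import Pool.Agent.Helper57.TW.Goals

/-!
# T74, block B: the sum over the rough prime powers with one narrow tent (packet T74B-NB)
-/

set_option autoImplicit false

open Finset Filter Topology

open scoped Classical ArithmeticFunction

namespace Pool.Agent.Helper3.TW

open Pool.Agent.Helper57.TW
open Pool.Agent.Helper88.CR (rg Wz gj LL PL ci ch)

lemma pe_nonneg (x : ℕ) (v η : ℝ) (n : ℕ) : 0 ≤ pe x v η n := le_max_left _ _

lemma pe_le_one (x : ℕ) (v η : ℝ) (hη : 0 ≤ η) (n : ℕ) : pe x v η n ≤ 1 := by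
  unfold pe
  refine max_le zero_le_one ?_
  have : 0 ≤ |Real.log (n / v) / (4 * Real.log x)
    - round (Real.log (n / v) / (4 * Real.log x))| / (η / (4 * Real.log x)) := by
    have h1 : 0 ≤ Real.log (x : ℝ) := Real.log_natCast_nonneg x
    positivity
  linarith

lemma pe_eq_te (x : ℕ) (v η : ℝ) (n : ℕ) (hx : 16 ≤ x) (hv1 : (x : ℝ) / 16 ≤ v) (hv2 : v ≤ x)
    (hn : 1 ≤ n) (hnx : n ≤ 4 * x) : pe x v η n = te v η n := by
  have hx0 : (0 : ℝ) < x := by exact_mod_cast (by omega : 0 < x)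
  have hn0 : (0 : ℝ) < n := by exact_mod_cast hn
  have hnx' : (n : ℝ) ≤ 4 * x := by exact_mod_cast hnx
  have hn1 : (1 : ℝ) ≤ n := by exact_mod_cast hn
  have hv0 : 0 < v := by linarith
  have hlx : Real.log 16 ≤ Real.log x := Real.log_le_log (by norm_num) (by exact_mod_cast hx)
  have hl16 : Real.log 16 = 4 * Real.log 2 := by
    rw [show (16 : ℝ) = 2 ^ 4 by norm_num, Real.log_pow]; norm_num
  have hl64 : Real.log 64 = 6 * Real.log 2 := by
    rw [show (64 : ℝ) = 2 ^ 6 by norm_num, Real.log_pow]; norm_num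
  have hl2 : 0 < Real.log 2 := Real.log_pos (by norm_num)
  have hlx0 : 0 < Real.log x := by linarith
  have hu1 : Real.log (n / v) ≤ Real.log 64 := by
    apply Real.log_le_log (by positivity)
    rw [div_le_iff₀ hv0]
    linarith
  have hu2 : - Real.log x ≤ Real.log (n / v) := by
    rw [← Real.log_inv]
    apply Real.log_le_log (by positivity)
    rw [inv_eq_one_div]
    gcongr
  have hr : round (Real.log (n / v) / (4 * Real.log x)) = 0 := by
    rw [round_eq_zero_iff]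
    constructor
    · rw [le_div_iff₀ (by positivity)]; linarith
    · rw [div_lt_iff₀ (by positivity)]; linarith
  unfold pe te
  rw [hr]
  congr 2
  rw [Int.cast_zero, sub_zero, abs_div, abs_of_pos (by positivity : 0 < 4 * Real.log x)]
  field_simp

lemma fk_nonneg (x k n : ℕ) : 0 ≤ fk x k n := by
  unfold fk
  have h1 : (0 : ℝ) ≤ ArithmeticFunction.vonMangoldt n := ArithmeticFunction.vonMangoldt_nonneg
  have h2 : 0 ≤ Real.log (n : ℝ) := Real.log_natCast_nonneg n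
  positivity

/-- the sum over a class and the rough integers -/
noncomputable def G (x k z q a n : ℕ) : ℝ := if n ≡ a [MOD q] ∧ rg z n then fk x k n else 0

lemma G_nonneg (x k z q a n : ℕ) : 0 ≤ G x k z q a n := by
  unfold G; split_ifs
  · exact fk_nonneg x k n
  · exact le_rfl

lemma G_le (x k z q a n : ℕ) : G x k z q a n ≤ fk x k n := by
  unfold G; split_ifs
  · exact le_rfl
  · exact fk_nonneg x k n

lemma nrm (n : ℕ) (hn : n ≠ 0) (t : ℝ) : ‖(n : ℂ) ^ (Complex.I * t)‖ = 1 := by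
  rw [Complex.norm_natCast_cpow_of_pos (Nat.pos_of_ne_zero hn)]
  simp

/-- `s = 1 + k/log x - i t` -/
noncomputable def sx (x k : ℕ) (t : ℝ) : ℂ :=
  ((1 + k / Real.log x : ℝ) : ℂ) - Complex.I * t

lemma sx_re (x k : ℕ) (t : ℝ) : (sx x k t).re = 1 + k / Real.log x := by
  simp [sx, -Complex.ofReal_add, -Complex.ofReal_div]

lemma sx_im (x k : ℕ) (t : ℝ) : (sx x k t).im = -t := by
  simp [sx, -Complex.ofReal_add, -Complex.ofReal_div]

lemma ser (x k z q a : ℕ) (h0 : fk x k 0 = 0) (t : ℝ) :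
    ∑' n, (G x k z q a n : ℂ) * (n : ℂ) ^ (Complex.I * t) = PL (ci z q a) k (sx x k t) := by
  unfold PL LSeries
  refine tsum_congr fun n => ?_
  rcases eq_or_ne n 0 with hn | hn
  · subst hn
    have : G x k z q a 0 = 0 :=
      le_antisymm (by simpa [h0] using G_le x k z q a 0) (G_nonneg _ _ _ _ _ _)
    simp [this]
  rw [LSeries.term_of_ne_zero hn]
  unfold G gj ci
  by_cases h : n ≡ a [MOD q] ∧ rg z n
  · rw [if_pos h, if_pos h, one_mul]
    unfold fk
    have hn0 : (0 : ℝ) ≤ n := Nat.cast_nonneg n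
    have hnc : (n : ℂ) ≠ 0 := by exact_mod_cast hn
    have e1 : (((n : ℝ) ^ (-(1 + k / Real.log x) : ℝ) : ℝ) : ℂ) * (n : ℂ) ^ (Complex.I * t)
        = 1 / (n : ℂ) ^ (sx x k t) := by
      rw [Complex.ofReal_cpow hn0, Complex.ofReal_natCast, ← Complex.cpow_add _ _ hnc, one_div,
        ← Complex.cpow_neg]
      congr 1
      unfold sx
      push_cast
      ring
    rw [Complex.ofReal_mul, Complex.ofReal_mul, mul_assoc, e1]
    ring
  · rw [if_neg h, if_neg h]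
    simp

lemma ser_summable (x k z q a : ℕ) (hs : Summable (fk x k)) (h0 : fk x k 0 = 0) (t : ℝ) :
    Summable fun n => (G x k z q a n : ℂ) * (n : ℂ) ^ (Complex.I * t) := by
  refine Summable.of_norm_bounded hs fun n => ?_
  rcases eq_or_ne n 0 with hn | hn
  · subst hn
    have : G x k z q a 0 = 0 :=
      le_antisymm (by simpa [h0] using G_le x k z q a 0) (G_nonneg _ _ _ _ _ _)
    simp [this, h0]
  rw [norm_mul, nrm n hn, mul_one, Complex.norm_real, Real.norm_of_nonneg (G_nonneg _ _ _ _ _ _)]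
  exact G_le x k z q a n

/-- the whole sum -/
lemma cmp (x k z q a : ℕ) (v η CF T E1 E2 : ℝ) (hη : 0 < η)
    (hφ : 0 < (Nat.totient q : ℝ)) (hφ1 : 1 ≤ (Nat.totient q : ℝ))
    (hs : Summable (fk x k)) (h0 : fk x k 0 = 0)
    (hFN : ∀ g : ℕ → ℝ, Summable g → g 0 = 0 →
      (∀ t : ℝ, |t| ≤ T → ‖∑' n, (g n : ℂ) * (n : ℂ) ^ (Complex.I * t)‖ ≤ E1) →
      (∀ t : ℝ, ‖∑' n, (g n : ℂ) * (n : ℂ) ^ (Complex.I * t)‖ ≤ E2) →
      |∑' n, g n * pe x v η n| ≤ E1 + CF * E2 / (η * T))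
    (hE2 : ∑' n, fk x k n ≤ E2)
    (hE1 : ∀ t : ℝ, |t| ≤ T → ‖PL (ci z q a) k (sx x k t)
      - ((1 / (Nat.totient q : ℝ) : ℝ) : ℂ) * PL (ci z 1 0) k (sx x k t)‖ ≤ E1) :
    Summable (fun n => (G x k z q a n - 1 / (Nat.totient q : ℝ) * G x k z 1 0 n) * pe x v η n) ∧
    |∑' n, (G x k z q a n - 1 / (Nat.totient q : ℝ) * G x k z 1 0 n) * pe x v η n|
      ≤ E1 + CF * E2 / (η * T) := by
  have hser : ∀ t : ℝ, ∑' n, ((G x k z q a n - 1 / (Nat.totient q : ℝ) * G x k z 1 0 n : ℝ) : ℂ)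
      * (n : ℂ) ^ (Complex.I * t) = PL (ci z q a) k (sx x k t)
      - ((1 / (Nat.totient q : ℝ) : ℝ) : ℂ) * PL (ci z 1 0) k (sx x k t) := by
    intro t
    rw [← ser x k z q a h0 t, ← ser x k z 1 0 h0 t, ← tsum_mul_left,
      ← (ser_summable x k z q a hs h0 t).tsum_sub
        ((ser_summable x k z 1 0 hs h0 t).mul_left _)]
    refine tsum_congr fun n => ?_
    push_cast
    ring
  have hG0 : ∀ q a, G x k z q a 0 = 0 := fun q a =>
    le_antisymm (by simpa [h0] using G_le x k z q a 0) (G_nonneg _ _ _ _ _ _)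
  have hGs : ∀ q a, Summable (G x k z q a) := fun q a =>
    Summable.of_nonneg_of_le (fun n => G_nonneg _ _ _ _ _ _) (fun n => G_le _ _ _ _ _ _) hs
  have hab : ∀ n, |G x k z q a n - 1 / (Nat.totient q : ℝ) * G x k z 1 0 n| ≤ fk x k n := by
    intro n
    have e1 := G_nonneg x k z q a n
    have e2 := G_le x k z q a n
    have e3 := G_nonneg x k z 1 0 n
    have e4 := G_le x k z 1 0 n
    have e5 : 1 / (Nat.totient q : ℝ) ≤ 1 := by rw [div_le_one hφ]; exact hφ1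
    have e6 : 0 ≤ 1 / (Nat.totient q : ℝ) := by positivity
    have e7 : 1 / (Nat.totient q : ℝ) * G x k z 1 0 n ≤ fk x k n := by nlinarith
    have e8 : 0 ≤ 1 / (Nat.totient q : ℝ) * G x k z 1 0 n := by positivity
    rw [abs_le]
    constructor <;> linarith
  constructor
  · refine Summable.of_norm_bounded hs fun n => ?_
    rw [norm_mul, Real.norm_eq_abs, Real.norm_of_nonneg (pe_nonneg _ _ _ _)]
    have h1 := hab n
    have h2 := pe_le_one x v η hη.le n
    have h3 := pe_nonneg x v η n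
    have h4 := abs_nonneg (G x k z q a n - 1 / (Nat.totient q : ℝ) * G x k z 1 0 n)
    nlinarith only [h1, h2, h3, h4]
  · exact hFN (fun n => G x k z q a n - 1 / (Nat.totient q : ℝ) * G x k z 1 0 n)
      ((hGs q a).sub ((hGs 1 0).mul_left _)) (by simp [hG0])
      (fun t ht => by rw [hser t]; exact hE1 t ht)
      (fun t => by
        refine le_trans ?_ hE2
        refine tsum_of_norm_bounded hs.hasSum fun n => ?_
        rcases eq_or_ne n 0 with hn | hn
        · subst hn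
          simp [hG0, h0]
        rw [norm_mul, nrm n hn, mul_one, Complex.norm_real, Real.norm_eq_abs]
        exact hab n)

/-- the part `n ≤ 4x` -/
lemma split (x k z q a : ℕ) (v η B1 B2 E : ℝ) (hx : 16 ≤ x)
    (hv1 : (x : ℝ) / 16 ≤ v) (hv2 : v ≤ x) (hφ : 0 < (Nat.totient q : ℝ))
    (h0 : fk x k 0 = 0)
    (hS : Summable (fun n =>
      (G x k z q a n - 1 / (Nat.totient q : ℝ) * G x k z 1 0 n) * pe x v η n))
    (hE : |∑' n, (G x k z q a n - 1 / (Nat.totient q : ℝ) * G x k z 1 0 n) * pe x v η n| ≤ E)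
    (hC1 : Summable (fun n => (if 4 * x < n ∧ n ≡ a [MOD q] then fk x k n else 0) * pe x v η n))
    (hC1b : ∑' n, (if 4 * x < n ∧ n ≡ a [MOD q] then fk x k n else 0) * pe x v η n ≤ B1)
    (hC2 : Summable (fun n => (if 4 * x < n ∧ n ≡ 0 [MOD 1] then fk x k n else 0) * pe x v η n))
    (hC2b : ∑' n, (if 4 * x < n ∧ n ≡ 0 [MOD 1] then fk x k n else 0) * pe x v η n ≤ B2) :
    |∑ n ∈ (Icc 1 (4 * x)).filter (rg z), fk x k n * te v η n *
        ((if n ≡ a [MOD q] then 1 else 0) - 1 / (Nat.totient q : ℝ))|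
      ≤ E + (B1 + 1 / (Nat.totient q : ℝ) * B2) := by
  have hG0 : ∀ q a, G x k z q a 0 = 0 := fun q a =>
    le_antisymm (by simpa [h0] using G_le x k z q a 0) (G_nonneg _ _ _ _ _ _)
  have hsum : ∑ n ∈ (Icc 1 (4 * x)).filter (rg z), fk x k n * te v η n *
        ((if n ≡ a [MOD q] then 1 else 0) - 1 / (Nat.totient q : ℝ))
      = ∑ n ∈ Icc 1 (4 * x),
        (G x k z q a n - 1 / (Nat.totient q : ℝ) * G x k z 1 0 n) * pe x v η n := by
    rw [sum_filter]
    refine sum_congr rfl fun n hn => ?_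
    rw [mem_Icc] at hn
    rw [pe_eq_te x v η n hx hv1 hv2 hn.1 hn.2]
    unfold G
    have h1 : n ≡ 0 [MOD 1] := Nat.modEq_one
    by_cases hr : rg z n
    · by_cases ha : n ≡ a [MOD q]
      · rw [if_pos hr, if_pos ha, if_pos ⟨ha, hr⟩, if_pos ⟨h1, hr⟩]
        ring
      · rw [if_pos hr, if_neg ha, if_neg (fun h => ha h.1), if_pos ⟨h1, hr⟩]
        ring
    · rw [if_neg hr, if_neg (fun h => hr h.2), if_neg (fun h => hr h.2)]
      ring
  have hF : HasSum (fun n => if n ∈ Icc 1 (4 * x) then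
      (G x k z q a n - 1 / (Nat.totient q : ℝ) * G x k z 1 0 n) * pe x v η n else 0)
      (∑ n ∈ Icc 1 (4 * x), (if n ∈ Icc 1 (4 * x) then
        (G x k z q a n - 1 / (Nat.totient q : ℝ) * G x k z 1 0 n) * pe x v η n else 0)) :=
    hasSum_sum_of_ne_finset_zero (fun n hn => if_neg hn)
  have hF' : ∑ n ∈ Icc 1 (4 * x), (if n ∈ Icc 1 (4 * x) then
        (G x k z q a n - 1 / (Nat.totient q : ℝ) * G x k z 1 0 n) * pe x v η n else 0)
      = ∑ n ∈ Icc 1 (4 * x),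
        (G x k z q a n - 1 / (Nat.totient q : ℝ) * G x k z 1 0 n) * pe x v η n :=
    sum_congr rfl fun n hn => if_pos hn
  rw [hF'] at hF
  -- the tail
  have hT := hS.sub hF.summable
  have hTe : ∑' n, ((G x k z q a n - 1 / (Nat.totient q : ℝ) * G x k z 1 0 n) * pe x v η n
      - (if n ∈ Icc 1 (4 * x) then
        (G x k z q a n - 1 / (Nat.totient q : ℝ) * G x k z 1 0 n) * pe x v η n else 0))
      = ∑' n, (G x k z q a n - 1 / (Nat.totient q : ℝ) * G x k z 1 0 n) * pe x v η n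
        - ∑ n ∈ Icc 1 (4 * x),
        (G x k z q a n - 1 / (Nat.totient q : ℝ) * G x k z 1 0 n) * pe x v η n := by
    rw [hS.tsum_sub hF.summable, hF.tsum_eq]
  have hD := hC1.add (hC2.mul_left (1 / (Nat.totient q : ℝ)))
  have hi0 : 0 ≤ 1 / (Nat.totient q : ℝ) := by positivity
  have hTb : |∑' n, ((G x k z q a n - 1 / (Nat.totient q : ℝ) * G x k z 1 0 n) * pe x v η n
      - (if n ∈ Icc 1 (4 * x) then
        (G x k z q a n - 1 / (Nat.totient q : ℝ) * G x k z 1 0 n) * pe x v η n else 0))|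
      ≤ B1 + 1 / (Nat.totient q : ℝ) * B2 := by
    have h1 : ∑' n, ((if 4 * x < n ∧ n ≡ a [MOD q] then fk x k n else 0) * pe x v η n
        + 1 / (Nat.totient q : ℝ) *
          ((if 4 * x < n ∧ n ≡ 0 [MOD 1] then fk x k n else 0) * pe x v η n))
        ≤ B1 + 1 / (Nat.totient q : ℝ) * B2 := by
      rw [hC1.tsum_add (hC2.mul_left _), tsum_mul_left]
      gcongr
    refine le_trans ?_ h1
    rw [← Real.norm_eq_abs]
    refine tsum_of_norm_bounded hD.hasSum fun n => ?_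
    have hp := pe_nonneg x v η n
    have hf := fk_nonneg x k n
    have hR : 0 ≤ (if 4 * x < n ∧ n ≡ a [MOD q] then fk x k n else 0) * pe x v η n
        + 1 / (Nat.totient q : ℝ) *
          ((if 4 * x < n ∧ n ≡ 0 [MOD 1] then fk x k n else 0) * pe x v η n) := by
      have a1 : 0 ≤ (if 4 * x < n ∧ n ≡ a [MOD q] then fk x k n else 0) := by
        split_ifs
        · exact hf
        · exact le_rfl
      have a2 : 0 ≤ (if 4 * x < n ∧ n ≡ 0 [MOD 1] then fk x k n else 0) := by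
        split_ifs
        · exact hf
        · exact le_rfl
      positivity
    by_cases h2 : n ∈ Icc 1 (4 * x)
    · rw [if_pos h2, sub_self, norm_zero]
      exact hR
    rw [if_neg h2, sub_zero]
    rcases Nat.eq_zero_or_pos n with h3 | h3
    · subst h3
      rw [hG0, hG0, mul_zero, sub_zero, zero_mul, norm_zero]
      exact hR
    have h4 : 4 * x < n := by
      rw [mem_Icc] at h2; omega
    have h5 : n ≡ 0 [MOD 1] := Nat.modEq_one
    rw [norm_mul, Real.norm_of_nonneg hp]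
    have g1 : G x k z q a n ≤ (if 4 * x < n ∧ n ≡ a [MOD q] then fk x k n else 0) := by
      unfold G
      by_cases h6 : n ≡ a [MOD q] ∧ rg z n
      · rw [if_pos h6, if_pos ⟨h4, h6.1⟩]
      · rw [if_neg h6]
        split_ifs
        · exact hf
        · exact le_rfl
    have g2 : G x k z 1 0 n ≤ (if 4 * x < n ∧ n ≡ 0 [MOD 1] then fk x k n else 0) := by
      rw [if_pos ⟨h4, h5⟩]
      exact G_le _ _ _ _ _ _
    have g3 := G_nonneg x k z q a n
    have g4 := G_nonneg x k z 1 0 n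
    have g5 : 1 / (Nat.totient q : ℝ) * G x k z 1 0 n ≤ 1 / (Nat.totient q : ℝ) *
        (if 4 * x < n ∧ n ≡ 0 [MOD 1] then fk x k n else 0) :=
      mul_le_mul_of_nonneg_left g2 hi0
    have g6 : 0 ≤ 1 / (Nat.totient q : ℝ) * G x k z 1 0 n := mul_nonneg hi0 g4
    have g7 : ‖G x k z q a n - 1 / (Nat.totient q : ℝ) * G x k z 1 0 n‖
        ≤ (if 4 * x < n ∧ n ≡ a [MOD q] then fk x k n else 0) + 1 / (Nat.totient q : ℝ) *
        (if 4 * x < n ∧ n ≡ 0 [MOD 1] then fk x k n else 0) := by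
      rw [Real.norm_eq_abs, abs_le]
      constructor
      · linarith
      · linarith
    calc ‖G x k z q a n - 1 / (Nat.totient q : ℝ) * G x k z 1 0 n‖ * pe x v η n
        ≤ ((if 4 * x < n ∧ n ≡ a [MOD q] then fk x k n else 0) + 1 / (Nat.totient q : ℝ) *
        (if 4 * x < n ∧ n ≡ 0 [MOD 1] then fk x k n else 0)) * pe x v η n :=
          mul_le_mul_of_nonneg_right g7 hp
      _ = _ := by ring
  rw [hTe] at hTb
  rw [hsum]
  rw [abs_le] at hTb hE ⊢
  constructor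
  · linarith [hTb.1, hTb.2, hE.1, hE.2]
  · linarith [hTb.1, hTb.2, hE.1, hE.2]

/-- for large `L`: `16 (a + L^(1/3)) ≤ √L` -/
lemma large (a c b : ℝ) (hc : 0 < c) : ∃ x0 : ℕ, ∀ x : ℕ, x0 ≤ x →
    16 ≤ x ∧ 16 * (a + Real.log x ^ (1 / 3 : ℝ)) ≤ √(Real.log x) ∧
    (1 / c) ^ 4 ≤ Real.log x ∧ b + 1 ≤ Real.exp (√(Real.log x)) ∧ 1 ≤ Real.log x := by
  have h1 : ∀ᶠ t : ℝ in atTop, 32 ≤ t ^ (1 / 6 : ℝ) :=
    (tendsto_rpow_atTop (by norm_num)).eventually_ge_atTop 32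
  have h2 : Tendsto (fun t : ℝ => √t) atTop atTop := Real.tendsto_sqrt_atTop
  have h3 : Tendsto (fun t : ℝ => Real.exp (√t)) atTop atTop :=
    Real.tendsto_exp_atTop.comp h2
  have key : ∀ᶠ t : ℝ in atTop, 16 * (a + t ^ (1 / 3 : ℝ)) ≤ √t ∧ (1 / c) ^ 4 ≤ t ∧
      b + 1 ≤ Real.exp (√t) ∧ 1 ≤ t := by
    filter_upwards [h1, h2.eventually_ge_atTop (32 * a), h3.eventually_ge_atTop (b + 1),
      eventually_ge_atTop ((1 / c) ^ 4), eventually_ge_atTop 1] with t t1 t2 t3 t4 t5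
    have ht0 : 0 ≤ t := by linarith
    have e1 : √t = t ^ (1 / 3 : ℝ) * t ^ (1 / 6 : ℝ) := by
      rw [← Real.rpow_add (by linarith), Real.sqrt_eq_rpow]
      norm_num
    have e2 : 0 ≤ t ^ (1 / 3 : ℝ) := Real.rpow_nonneg ht0 _
    have e3 : t ^ (1 / 3 : ℝ) * 32 ≤ √t := by
      rw [e1]
      exact mul_le_mul_of_nonneg_left t1 e2
    exact ⟨by linarith, t4, t3, t5⟩
  have hlim : Tendsto (fun x : ℕ => Real.log (x : ℝ)) atTop atTop :=
    Real.tendsto_log_atTop.comp tendsto_natCast_atTop_atTop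
  obtain ⟨x0, hx0⟩ := eventually_atTop.1 ((hlim.eventually key).and (eventually_ge_atTop 16))
  exact ⟨x0, fun x hx => ⟨(hx0 x hx).2, (hx0 x hx).1.1, (hx0 x hx).1.2.1, (hx0 x hx).1.2.2.1,
    (hx0 x hx).1.2.2.2⟩⟩

theorem nb (h1 : StmtPG) (h2 : StmtFN) (h3 : StmtTN) (h4 : StmtCN) : StmtNB := by
  obtain ⟨K, c, hK, hc, hc1, hPG⟩ := h1
  obtain ⟨CF, hCF, hFN⟩ := h2
  obtain ⟨CC, hCC, hCN⟩ := h4
  refine ⟨K + CF + 2 * CC, by linarith, fun q0 N hq0 => ?_⟩
  obtain ⟨z0, hz0⟩ := hPG q0 N hq0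
  obtain ⟨x0, hx0⟩ := large (Real.log q0) c ((z0 : ℝ) + 2) hc
  refine ⟨x0, fun x hx => ?_⟩
  obtain ⟨hx16, hxa, hxc, hxz, hL1⟩ := hx0 x hx
  have hxp : (0 : ℝ) < x := by exact_mod_cast (by omega : 0 < x)
  obtain ⟨L, hLd⟩ : ∃ L : ℝ, L = Real.log (x : ℝ) := ⟨_, rfl⟩
  obtain ⟨z, hz⟩ : ∃ z : ℕ, z = zx x := ⟨_, rfl⟩
  have hzle : (z : ℝ) ≤ Real.exp (√L) := by
    rw [hz, hLd]
    exact Nat.floor_le (Real.exp_pos _).le
  have hzge : Real.exp (√L) < z + 1 := by
    rw [hz, hLd]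
    exact Nat.lt_floor_add_one _
  rw [← hLd] at hxa hxc hxz hL1
  have hL0 : 0 < L := by linarith
  have hz2 : (z0 : ℝ) + 2 < z := by linarith
  have hzz0 : z0 ≤ z := by
    have : (z0 : ℝ) ≤ z := by linarith
    exact_mod_cast this
  have hz1 : (1 : ℝ) < z := by
    have : (0 : ℝ) ≤ z0 := Nat.cast_nonneg _
    linarith
  have hz0' : (0 : ℝ) < z := by linarith
  have hlogz : Real.log z ≤ √L := by
    rw [Real.log_le_iff_le_exp hz0']
    exact hzle
  have hlogz0 : 0 < Real.log z := Real.log_pos hz1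
  obtain ⟨p0, hp, hpN, hpq, hpd⟩ := hz0 z hzz0
  refine ⟨p0, hp, hpN, hpq, fun d hd hpd' hdle a ha k hk hkL v η hv1 hv2 hη hη1 hqη => ?_⟩
  rw [← hLd] at hdle hkL
  rw [← hLd, ← hz]
  have hq0r : (1 : ℝ) ≤ q0 := by exact_mod_cast hq0
  have hq0p : (0 : ℝ) < q0 := by linarith
  have hd0 : 0 < d := Nat.pos_of_ne_zero hd.ne_zero
  have hd0r : (0 : ℝ) < d := by exact_mod_cast hd0
  have hq16 : (q0 * d) ^ 16 ≤ z := by
    rw [hz]
    unfold zx
    refine Nat.le_floor ?_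
    rw [← hLd]
    push_cast
    rw [← Real.log_le_iff_le_exp (by positivity), Real.log_pow, Real.log_mul hq0p.ne' hd0r.ne']
    have hld : Real.log d ≤ L ^ (1 / 3 : ℝ) := by
      rw [Real.log_le_iff_le_exp hd0r]
      exact hdle
    push_cast
    linarith
  have hmain := hpd d hd hpd' hq16 a ha
  obtain ⟨q, hq⟩ : ∃ q : ℕ, q = q0 * d := ⟨_, rfl⟩
  rw [← hq] at hmain hqη ⊢
  have hqpos : 0 < q := by rw [hq]; positivity
  have hφn : 1 ≤ Nat.totient q := Nat.totient_pos.2 hqpos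
  have hφ1 : (1 : ℝ) ≤ Nat.totient q := by exact_mod_cast hφn
  have hφ0 : (0 : ℝ) < Nat.totient q := by linarith
  have hφq : (Nat.totient q : ℝ) ≤ q := by exact_mod_cast Nat.totient_le q
  have hq1r : (1 : ℝ) ≤ q := by exact_mod_cast hqpos
  have hk1 : (1 : ℝ) ≤ k := by exact_mod_cast hk
  have hk4 : (k : ℝ) ≤ (k : ℝ) ^ 4 := by
    calc (k : ℝ) = (k : ℝ) ^ 1 := (pow_one _).symm
      _ ≤ (k : ℝ) ^ 4 := pow_le_pow_right₀ hk1 (by norm_num)
  have hkL' : (k : ℝ) ≤ L := hk4.trans hkL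
  -- `k / L ≤ c / log z`
  have hsq : √L * √L = L := Real.mul_self_sqrt hL0.le
  have hsq0 : 0 < √L := Real.sqrt_pos.2 hL0
  have hks : (k : ℝ) ^ 2 ≤ √L := by
    refine Real.le_sqrt_of_sq_le ?_
    calc ((k : ℝ) ^ 2) ^ 2 = (k : ℝ) ^ 4 := by ring
      _ ≤ L := hkL
  have hcs : (1 / c) ^ 2 ≤ √L := by
    refine Real.le_sqrt_of_sq_le ?_
    calc ((1 / c) ^ 2) ^ 2 = (1 / c) ^ 4 := by ring
      _ ≤ L := hxc
  have hkc : (k : ℝ) * (1 / c) ≤ √L := by
    have hc0 : 0 < 1 / c := by positivity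
    nlinarith only [hks, hcs, sq_nonneg ((k : ℝ) - 1 / c)]
  have hkc' : (k : ℝ) ≤ c * √L := by
    rw [mul_one_div, div_le_iff₀ hc] at hkc
    linarith only [hkc]
  have hkz : (k : ℝ) * Real.log z ≤ c * L := by
    calc (k : ℝ) * Real.log z ≤ (c * √L) * √L := by gcongr
      _ = c * L := by rw [mul_assoc, hsq]
  -- the parameters
  have hT1 : 1 ≤ (z : ℝ) ^ (1 / 32 : ℝ) := Real.one_le_rpow hz1.le (by norm_num)
  have hT0 : 0 < (z : ℝ) ^ (1 / 32 : ℝ) := by linarith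
  obtain ⟨T, hT⟩ : ∃ T : ℝ, T = (z : ℝ) ^ (1 / 32 : ℝ) := ⟨_, rfl⟩
  rw [← hT] at hT1 hT0 ⊢
  have hv0 : 0 < v := by linarith
  obtain ⟨hfs, hf0, -⟩ := h3 x k hx16 hk
  obtain ⟨hS, hE⟩ := cmp x k z q a v η CF T (1 / (Nat.totient q : ℝ) * (K * Real.log z) ^ (k + 1))
    (∑' n, fk x k n) hη hφ0 hφ1 hfs hf0
    (fun g g1 g2 g3 g4 => hFN x v η T _ _ g hx16 hv0 hη hη1 hT1 g1 g2 g3 g4) le_rfl
    (fun t ht => by
      refine hmain (sx x k t) k ?_ ?_ ?_
      · rw [sx_re, ← hLd]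
        have : 0 < (k : ℝ) / L := by positivity
        linarith
      · rw [sx_re, ← hLd]
        have : (k : ℝ) / L ≤ c / Real.log z := by
          rw [div_le_div_iff₀ hL0 hlogz0]; exact hkz
        linarith
      · rw [sx_im, abs_neg, ← hT]; exact ht)
  obtain ⟨hC1, hC1b⟩ := hCN x k q a v η hx16 hk (by rw [← hLd]; exact hkL') hqpos hη hη1 hqη
    hv1 hv2
  obtain ⟨hC2, hC2b⟩ := hCN x k 1 0 v η hx16 hk (by rw [← hLd]; exact hkL') le_rfl hη hη1
    (by push_cast; linarith) hv1 hv2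
  have hsp := split x k z q a v η _ _ _ hx16 hv1 hv2 hφ0 hf0 hS hE hC1 hC1b hC2 hC2b
  refine hsp.trans ?_
  rw [← hLd]
  have hfk0 : 0 ≤ ∑' n, fk x k n := tsum_nonneg fun n => fk_nonneg x k n
  have hm0 : 0 ≤ m0 x k := by
    unfold m0
    rw [← hLd]
    positivity
  obtain ⟨X, hX⟩ : ∃ X : ℝ, X = L * m0 x k * Real.exp (-(2 * (k : ℝ))) := ⟨_, rfl⟩
  have hX0 : 0 ≤ X := by rw [hX]; positivity
  have b1 : 1 / (Nat.totient q : ℝ) * (K * Real.log z) ^ (k + 1)
      ≤ 1 / (Nat.totient q : ℝ) * ((K + CF + 2 * CC) * √L) ^ (k + 1) := by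
    have : K * Real.log z ≤ (K + CF + 2 * CC) * √L := by
      have e1 : K * Real.log z ≤ K * √L := by gcongr
      have e2 : 0 ≤ (CF + 2 * CC) * √L := by positivity
      linarith only [e1, e2]
    have h0 : 0 ≤ K * Real.log z := by positivity
    gcongr
  have b2 : CF * (∑' n, fk x k n) / (η * T) ≤ (K + CF + 2 * CC) * (∑' n, fk x k n) / (η * T) := by
    have : CF ≤ K + CF + 2 * CC := by linarith
    gcongr
  have b3 : CC * (η / q) * L * m0 x k * Real.exp (-(2 * (k : ℝ)))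
      ≤ CC * (η / (Nat.totient q : ℝ)) * X := by
    have e1 : CC * (η / q) * L * m0 x k * Real.exp (-(2 * (k : ℝ))) = CC * (η / q) * X := by
      rw [hX]; ring
    rw [e1]
    gcongr
  have b4 : 1 / (Nat.totient q : ℝ) *
      (CC * (η / ((1 : ℕ) : ℝ)) * L * m0 x k * Real.exp (-(2 * (k : ℝ))))
      = CC * (η / (Nat.totient q : ℝ)) * X := by
    rw [hX]
    push_cast
    ring
  have b5 : (K + CF + 2 * CC) * η / (Nat.totient q : ℝ) * L * m0 x k * Real.exp (-(2 * (k : ℝ)))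
      = (K + CF) * (η / (Nat.totient q : ℝ)) * X + 2 * (CC * (η / (Nat.totient q : ℝ)) * X) := by
    rw [hX]; ring
  have b6 : 0 ≤ (K + CF) * (η / (Nat.totient q : ℝ)) * X := by positivity
  rw [b4, b5]
  linarith only [b1, b2, b3, b6]

end Pool.Agent.Helper3.TW
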