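import Pool.Agent.Helper83.TW.Goals2

/-! Packet TW-GId (MP_39e2b7_an): identification of the leaves with the analytic circles. -/

set_option autoImplicit false

namespace Pool.Agent.Helper3.TW

open Complex Set Filter Topology Pool.Agent.Helper83.TW

/-- label of a point: the height over `0` of the leaf through it -/
noncomputable def lab {ι : Type} (U : ι → ℝ → ℝ) (x Y : ℝ) : ℝ :=
  open Classical in if h : ∃ i, U i x = Y then U h.choose 0 else 0

theorem lab_eq {P Q : ℂ × ℂ → ℂ} {ι : Type} {U : ι → ℝ → ℝ} (hL : Leaves P Q U) (i : ι) (x : ℝ) :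
    lab U x (U i x) = U i 0 := by
  unfold lab
  have h : ∃ j, U j x = U i x := ⟨i, rfl⟩
  rw [dif_pos h]
  exact hL.disj _ _ x h.choose_spec 0

theorem lab_cont {P Q : ℂ × ℂ → ℂ} {ι : Type} {U : ι → ℝ → ℝ} (hL : Leaves P Q U)
    (hosc : ∀ i x x', |U i x - U i x'| ≤ 1/100)
    (hord : ∀ i j x, U i x < U j x → ∀ x', U i x' < U j x') (x Y : ℝ) (h1 : 1/4 < Y)
    (h2 : Y < 11/4) : ContinuousAt (fun q : ℝ × ℝ => lab U q.1 q.2) (x, Y) := by
  rw [ContinuousAt, Metric.tendsto_nhds]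
  intro ε hε
  obtain ⟨i, hi⟩ := hL.cover x Y (by linarith) (by linarith)
  set ε' := min ε (1/100) with hε'
  have hε0 : 0 < ε' := lt_min hε (by norm_num)
  have hε1 : ε' ≤ 1/100 := min_le_right _ _
  have ho := abs_le.1 (hosc i 0 x)
  obtain ⟨i1, hi1⟩ := hL.cover 0 (U i 0 - ε') (by linarith [ho.1]) (by linarith [ho.2])
  obtain ⟨i2, hi2⟩ := hL.cover 0 (U i 0 + ε') (by linarith [ho.1]) (by linarith [ho.2])
  have hlt1 : U i1 x < Y := by
    rw [← hi]
    exact hord i1 i 0 (by linarith) x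
  have hlt2 : Y < U i2 x := by
    rw [← hi]
    exact hord i i2 0 (by linarith) x
  have e1 : ∀ᶠ q : ℝ × ℝ in 𝓝 (x, Y), U i1 q.1 < q.2 :=
    (isOpen_lt ((hL.cont i1).comp continuous_fst) continuous_snd).mem_nhds hlt1
  have e2 : ∀ᶠ q : ℝ × ℝ in 𝓝 (x, Y), q.2 < U i2 q.1 :=
    (isOpen_lt continuous_snd ((hL.cont i2).comp continuous_fst)).mem_nhds hlt2
  have e3 : ∀ᶠ q : ℝ × ℝ in 𝓝 (x, Y), 1/4 < q.2 :=
    (isOpen_lt continuous_const continuous_snd).mem_nhds h1
  have e4 : ∀ᶠ q : ℝ × ℝ in 𝓝 (x, Y), q.2 < 11/4 :=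
    (isOpen_lt continuous_snd continuous_const).mem_nhds h2
  filter_upwards [e1, e2, e3, e4] with q h3 h4 h5 h6
  obtain ⟨j, hj⟩ := hL.cover q.1 q.2 (by linarith) (by linarith)
  have g1 : lab U x Y = U i 0 := by rw [← hi]; exact lab_eq hL i x
  have g2 : lab U q.1 q.2 = U j 0 := by rw [← hj]; exact lab_eq hL j q.1
  show dist (lab U q.1 q.2) (lab U x Y) < ε
  rw [g1, g2]
  have g3 : U i1 0 < U j 0 := hord i1 j q.1 (by rw [hj]; exact h3) 0
  have g4 : U j 0 < U i2 0 := hord j i2 q.1 (by rw [hj]; exact h4) 0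
  have g5 : ε' ≤ ε := min_le_left _ _
  rw [Real.dist_eq, abs_lt]
  constructor <;> linarith

theorem const_of_irrational (f : ℝ → ℝ) (hf : Continuous f) (w : ℝ) (hw : Irrational w)
    (h1 : ∀ θ, f (θ + 1) = f θ) (h2 : ∀ θ, f (θ + w) = f θ) (t : ℝ) : f t = f 0 := by
  let S : AddSubgroup ℝ :=
    { carrier := {t | ∀ θ, f (θ + t) = f θ}
      zero_mem' := fun θ => by rw [add_zero]
      add_mem' := fun {a b} ha hb θ => by
        rw [← add_assoc, hb, ha]
      neg_mem' := fun {a} ha θ => by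
        have := ha (θ + -a)
        rw [neg_add_cancel_right] at this
        exact this.symm }
  have hd : Dense (AddSubgroup.closure {w, 1} : Set ℝ) := by
    rw [dense_addSubgroupClosure_pair_iff]
    simpa using hw
  have hsub : (AddSubgroup.closure {w, 1} : Set ℝ) ⊆ {t | f t = f 0} := by
    have hle : AddSubgroup.closure {w, 1} ≤ S := by
      rw [AddSubgroup.closure_le]
      rintro a (rfl | ha)
      · exact h2
      · rw [Set.mem_singleton_iff] at ha
        subst ha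
        exact h1
    intro a ha
    have := hle ha 0
    rw [zero_add] at this
    exact this
  have hcl : IsClosed {t | f t = f 0} := isClosed_eq hf continuous_const
  exact (hcl.closure_subset_iff.2 hsub) (hd t)

theorem gid : GOsc → GInvAn → GId := by
  intro hOsc hInv P Q ρ η hNI ι U hL y g hG hLim i hi1 hi2
  obtain ⟨hosc, -, -, -, hord⟩ := hOsc P Q ρ η hNI ι U hL
  obtain ⟨h, p, hmain, hhc, hpc⟩ := hLim
  have hρ := hNI.hρ0
  -- step 0
  have hstep : ∀ w ∈ Icc (1:ℝ) 2, ∀ θ : ℝ,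
      Gm P Q (h w θ) (p w θ) = (h w (θ + w), p w (θ + w)) := by
    intro w hw θ
    obtain ⟨-, -, hθ⟩ := hmain w hw
    obtain ⟨-, -, hb1, hb2, -, hE1, hE2⟩ := hθ θ
    obtain ⟨-, -, hb3, -, -, -, -⟩ := hθ (θ + w)
    set x := h w θ with hx
    set d := h w (θ + w) - x with hd
    have hd1 : 1/4 < d := by
      have a1 := abs_le.1 hb1
      have a3 := abs_le.1 hb3
      linarith [a1.1, a1.2, a3.1, a3.2, hw.1, hw.2]
    have hd2 : d < 11/4 := by
      have a1 := abs_le.1 hb1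
      have a3 := abs_le.1 hb3
      linarith [a1.1, a1.2, a3.1, a3.2, hw.1, hw.2]
    have hmem : ((x : ℂ), (d : ℂ)) ∈ DG (ρ/2) := by
      refine ⟨?_, ?_, ?_, ?_⟩
      · simpa using hρ
      · simpa using hd1
      · simpa using hd2
      · simpa using hρ
    have hg1 := hG.g1 _ hmem
    have hg2 := hG.g2 _ hmem
    have hye := hG.ye _ hmem
    simp only at hg1 hg2 hye
    rw [hg2] at hE1 hE2
    rw [hg1] at hE2
    have hY : (d : ℂ) + y ((x : ℂ), (d : ℂ)) = (p w θ : ℂ) := by linear_combination hE2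
    rw [hY] at hye hE1 hE2
    have hPv : P ((x : ℂ), (p w θ : ℂ)) = ((d - p w θ : ℝ) : ℂ) := by
      push_cast
      linear_combination hye - hY
    have hQv : Q ((x : ℂ), (p w θ : ℂ)) = ((p w (θ + w) - p w θ : ℝ) : ℂ) := by
      push_cast
      linear_combination hE1 - hY
    unfold Gm
    rw [hPv, hQv, Complex.ofReal_re, Complex.ofReal_re]
    apply Prod.ext
    · show x + p w θ + (d - p w θ) = h w (θ + w)
      rw [hd]; ring
    · show p w θ + (p w (θ + w) - p w θ) = p w (θ + w)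
      ring
  -- heights
  have hpb : ∀ w ∈ Icc (1:ℝ) 2, ∀ θ : ℝ, 1/4 < p w θ ∧ p w θ < 11/4 := by
    intro w hw θ
    have := abs_le.1 ((hmain w hw).2.2 θ).2.2.2.1
    exact ⟨by linarith [this.1, hw.1], by linarith [this.2, hw.2]⟩
  -- the label function
  let k : ℝ → ℝ → ℝ := fun w θ => lab U (h w θ) (p w θ)
  have hkc : ContinuousOn (fun q : ℝ × ℝ => k q.1 q.2) (Icc (1:ℝ) 2 ×ˢ univ) := by
    intro q hq
    have hc := lab_cont hL hosc hord (h q.1 q.2) (p q.1 q.2) (hpb q.1 hq.1 q.2).1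
      (hpb q.1 hq.1 q.2).2
    exact ContinuousAt.comp_continuousWithinAt (f := fun q : ℝ × ℝ => (h q.1 q.2, p q.1 q.2))
      (g := fun q : ℝ × ℝ => lab U q.1 q.2) hc ((hhc q hq).prodMk (hpc q hq))
  have hkθ : ∀ w ∈ Icc (1:ℝ) 2, Continuous (k w) := by
    intro w hw
    rw [← continuousOn_univ]
    exact hkc.comp (Continuous.prodMk continuous_const continuous_id).continuousOn
      (fun θ _ => ⟨hw, mem_univ _⟩)
  have hkw : ∀ θ, ContinuousOn (fun w => k w θ) (Icc (1:ℝ) 2) := by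
    intro θ
    exact hkc.comp (Continuous.prodMk continuous_id continuous_const).continuousOn
      (fun w hw => ⟨hw, mem_univ _⟩)
  have hk1 : ∀ w ∈ Icc (1:ℝ) 2, ∀ θ, k w (θ + 1) = k w θ := by
    intro w hw θ
    obtain ⟨hh1, hp1, -⟩ := (hmain w hw).2.2 θ
    obtain ⟨j, hj⟩ := hL.cover (h w θ) (p w θ) (by linarith [(hpb w hw θ).1])
      (by linarith [(hpb w hw θ).2])
    show lab U (h w (θ + 1)) (p w (θ + 1)) = lab U (h w θ) (p w θ)
    rw [hh1, hp1, ← hj, lab_eq hL]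
    rw [← hL.per j (h w θ), lab_eq hL]
  have hkrot : ∀ w ∈ Icc (1:ℝ) 2, ∀ θ, k w (θ + w) = k w θ := by
    intro w hw θ
    obtain ⟨j, hj⟩ := hL.cover (h w θ) (p w θ) (by linarith [(hpb w hw θ).1])
      (by linarith [(hpb w hw θ).2])
    have hinv := hL.inv j (h w θ)
    rw [hj, hstep w hw θ] at hinv
    simp only at hinv
    show lab U (h w (θ + w)) (p w (θ + w)) = lab U (h w θ) (p w θ)
    rw [hinv, lab_eq hL, ← hj, lab_eq hL]
  have hkconst : ∀ w ∈ Icc (1:ℝ) 2, ∀ θ, k w θ = k w 0 := by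
    intro w hw θ
    have hEq : EqOn (fun w => k w θ) (fun w => k w 0) (Icc (1:ℝ) 2) := by
      have hs : EqOn (fun w => k w θ) (fun w => k w 0) (Ioo (1:ℝ) 2 ∩ {w | Irrational w}) := by
        rintro w ⟨hw, hirr⟩
        have hw' : w ∈ Icc (1:ℝ) 2 := Ioo_subset_Icc_self hw
        exact const_of_irrational (k w) (hkθ w hw') w hirr (hk1 w hw') (hkrot w hw') θ
      refine hs.of_subset_closure (hkw θ) (hkw 0) (inter_subset_left.trans Ioo_subset_Icc_self) ?_
      have h1 : Ioo (1:ℝ) 2 ⊆ closure (Ioo (1:ℝ) 2 ∩ {w | Irrational w}) :=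
        dense_irrational.open_subset_closure_inter isOpen_Ioo
      have h2 := closure_minimal h1 isClosed_closure
      rwa [closure_Ioo (by norm_num)] at h2
    exact hEq hw
  -- the leaf of rotation number w
  have hleaf : ∀ w ∈ Icc (1:ℝ) 2, ∃ j, U j 0 = k w 0 ∧ ∀ θ, U j (h w θ) = p w θ := by
    intro w hw
    obtain ⟨j, hj⟩ := hL.cover (h w 0) (p w 0) (by linarith [(hpb w hw 0).1])
      (by linarith [(hpb w hw 0).2])
    have hj0 : U j 0 = k w 0 := by
      show _ = lab U (h w 0) (p w 0)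
      rw [← hj, lab_eq hL]
    refine ⟨j, hj0, fun θ => ?_⟩
    obtain ⟨l, hl⟩ := hL.cover (h w θ) (p w θ) (by linarith [(hpb w hw θ).1])
      (by linarith [(hpb w hw θ).2])
    have hl0 : U l 0 = k w θ := by
      show _ = lab U (h w θ) (p w θ)
      rw [← hl, lab_eq hL]
    rw [hkconst w hw θ, ← hj0] at hl0
    rw [← hl]
    exact (hL.disj l j 0 hl0 _).symm
  -- the inverse of `h w`
  have hinvw : ∀ w ∈ Icc (1:ℝ) 2, ∃ G : ℝ → ℝ, AnalyticOnNhd ℝ G univ ∧
      (∀ y, h w (G y) = y) := by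
    intro w hw
    obtain ⟨ha, -, hθ⟩ := hmain w hw
    obtain ⟨G, hG1, -, hG2, -⟩ := hInv (h w) ha (fun x => by linarith [(hθ x).2.2.2.2.1])
      (fun x => (hθ x).1)
    exact ⟨G, hG1, hG2⟩
  -- the values of `k` at the ends
  have hend : ∀ w ∈ Icc (1:ℝ) 2, (∀ θ, h w (θ + w) = h w θ + w) →
      k w 0 = w + (y ((0:ℝ), (w : ℂ))).re := by
    intro w hw hww
    obtain ⟨j, hj0, hj⟩ := hleaf w hw
    obtain ⟨G, -, hG2⟩ := hinvw w hw
    have hGm := hstep w hw (G 0)
    have h3 := hj (G 0)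
    rw [hG2] at h3
    rw [hww, hG2, ← h3, zero_add] at hGm
    have h4 := congrArg Prod.fst hGm
    simp only [Gm, zero_add] at h4
    have hins := hL.inside j 0
    have hyu := hG.yu 0 (U j 0) (by linarith [hins.1]) (by linarith [hins.2])
      (by rw [h4]; linarith [hw.1]) (by rw [h4]; linarith [hw.2])
    rw [h4] at hyu
    rw [← hj0, hyu]
    linarith
  have hK1 : k 1 0 = 1 + (y ((0:ℝ), ((1:ℝ) : ℂ))).re :=
    hend 1 ⟨le_rfl, by norm_num⟩ (fun θ => ((hmain 1 ⟨le_rfl, by norm_num⟩).2.2 θ).1)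
  have hK2 : k 2 0 = 2 + (y ((0:ℝ), ((2:ℝ) : ℂ))).re := by
    refine hend 2 ⟨by norm_num, le_rfl⟩ (fun θ => ?_)
    have hh := fun θ => ((hmain 2 ⟨by norm_num, le_rfl⟩).2.2 θ).1
    have : θ + 2 = θ + 1 + 1 := by ring
    rw [this, hh, hh]
    ring
  -- the given leaf
  have hins := hL.inside i 0
  set di := (Gm P Q 0 (U i 0)).1 with hdi
  have hdi' : U i 0 + (P (((0:ℝ):ℂ), ((U i 0 : ℝ):ℂ))).re = di := by
    rw [hdi]
    simp only [Gm, zero_add]
  have hyu := hG.yu 0 (U i 0) (by linarith [hins.1]) (by linarith [hins.2])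
      (by rw [hdi']; linarith) (by rw [hdi']; linarith)
  rw [hdi'] at hyu
  have hUi : U i 0 = di + (y ((0:ℝ), (di : ℂ))).re := by
    rw [hyu]; linarith
  have hmono : ∀ d d' : ℝ, 1/4 < d → d ≤ d' → d' < 11/4 →
      d + (y (((0:ℝ):ℂ), (d:ℂ))).re ≤ d' + (y (((0:ℝ):ℂ), (d':ℂ))).re := by
    intro d d' h1 h2 h3
    rcases h2.eq_or_lt with h4 | h4
    · rw [h4]
    · exact (hG.ymono 0 d d' h1 h4 h3).le
  have hge : k 1 0 ≤ U i 0 := by
    rw [hK1, hUi]
    exact hmono 1 di (by norm_num) hi1 (by linarith)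
  have hle : U i 0 ≤ k 2 0 := by
    rw [hK2, hUi]
    exact hmono di 2 (by linarith) hi2 (by norm_num)
  obtain ⟨w, hw, hwk⟩ := intermediate_value_Icc (by norm_num : (1:ℝ) ≤ 2) (hkw 0) ⟨hge, hle⟩
  obtain ⟨j, hj0, hj⟩ := hleaf w hw
  obtain ⟨G, hGa, hG2⟩ := hinvw w hw
  have hij : ∀ x, U i x = U j x := by
    intro x
    refine hL.disj i j 0 ?_ x
    rw [hj0]
    exact hwk.symm
  have hfun : U i = fun x => p w (G x) := by
    funext x
    rw [hij, ← hj (G x), hG2]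
  rw [hfun]
  exact (hmain w hw).2.1.comp hGa (fun _ _ => mem_univ _)

end Pool.Agent.Helper3.TW
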