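import Pool.Agent.Helper83.TW.Goals1

/-! Packet TW-GIter (MP_39e2b7_an): the iteration of the scheme. -/

set_option autoImplicit false

namespace Pool.Agent.Helper3.TW

open Complex Set Pool.Agent.Helper83.TW

/-- the initial state -/
noncomputable def S0 : St where
  u := fun _ => 0
  v := fun _ => 0
  a := fun w => w
  γ := fun w => w ^ 2 / 2

theorem D1_zero (p : ℂ × ℂ) : D1 (fun _ => (0:ℂ)) p = 0 := by
  simp [D1]

theorem D2_zero (p : ℂ × ℂ) : D2 (fun _ => (0:ℂ)) p = 0 := by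
  simp [D2]

theorem D1_zero' : D1 (fun _ => (0:ℂ)) = fun _ => 0 := funext D1_zero

theorem hol_zero (U : Set (ℂ × ℂ)) : Hol (fun _ => (0:ℂ)) U :=
  ⟨differentiableOn_const 0, fun _ _ => rfl, fun _ _ => by simp⟩

theorem ok_S0 (r s : ℝ) : Ok S0 r s 0 where
  hu := hol_zero _
  hv := hol_zero _
  ha := ⟨differentiableOn_id, fun _ _ => rfl⟩
  hγ := ⟨by
    show DifferentiableOn ℂ (fun w : ℂ => w ^ 2 / 2) (Om s)
    fun_prop, fun w _ => by
      have h2 : (starRingEnd ℂ) 2 = 2 := Complex.conj_ofNat 2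
      simp [S0, h2]⟩
  c0 := le_rfl
  bu := fun p _ => by simp [S0]
  bu1 := fun p _ => by simp [S0, D1_zero]
  bu2 := fun p _ => by simp [S0, D2_zero]
  bu11 := fun p _ => by simp [S0, D1_zero']
  bv1 := fun p _ => by simp [S0, D1_zero]
  bv11 := fun p _ => by simp [S0, D1_zero']
  ba := fun w _ => by simp [S0]
  ba1 := fun w _ => by simp [S0]
  I2 := fun p _ => by simp [S0, D1_zero, D2_zero]
  I3 := fun w _ => by
    have h : HasDerivAt (fun w : ℂ => w ^ 2 / 2) w w := by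
      have h1 := (hasDerivAt_pow 2 w).div_const 2
      have h3 : ((2:ℕ):ℂ) * w ^ (2-1) / 2 = w := by norm_num
      rw [h3] at h1
      exact h1
    have h2 : deriv (fun w : ℂ => w ^ 2 / 2) w = w := h.deriv
    show deriv (fun w : ℂ => w ^ 2 / 2) w = w * deriv (fun w : ℂ => w) w
    rw [h2, deriv_id'', mul_one]

theorem err_S0 (g : ℂ × ℂ → ℂ) (p : ℂ × ℂ) : Err g S0 p = g p := by
  simp only [Err, EE, de, hh, S0, add_zero, sub_zero]
  ring

theorem giter : GNum → GStep → GCau → GIter := by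
  rintro ⟨A0, hnum⟩ hstep hcau
  refine ⟨A0, fun ρ hρ0 hρ1 g hg hgb hper => ?_⟩
  obtain ⟨r, s, δ, Λ, η, M, hr0, hprm, hr, hs, hδ, hη, hsum, hcb, hA0⟩ := hnum ρ hρ0 hρ1
  have h0 := hprm 0
  have hΛρ : 128 ≤ Λ 0 * ρ := by
    have h1 : s 0 ≤ ρ / 128 := h0.hs1.trans h0.hδ1
    have h2 := h0.hΛs
    have h3 : Λ 0 * s 0 ≤ Λ 0 * (ρ / 128) :=
      mul_le_mul_of_nonneg_left h1 (by linarith [h0.hΛ])
    linarith
  have hΛ1 : (1:ℝ) ≤ Λ 0 := by linarith [h0.hΛ]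
  have hη2 : Λ 0 ^ 2 * η 0 ≤ 1 / 1024 := by
    have h1 : Λ 0 ^ 3 * η 0 ≤ 1 := by
      refine le_trans (mul_le_mul_of_nonneg_right ?_ h0.hη0.le) h0.hη
      exact pow_le_pow_right₀ hΛ1 (by norm_num)
    have h2 : 0 ≤ Λ 0 ^ 2 * η 0 := by have := h0.hη0; positivity
    have h3 : 1024 * (Λ 0 ^ 2 * η 0) ≤ Λ 0 * (Λ 0 ^ 2 * η 0) :=
      mul_le_mul_of_nonneg_right h0.hΛ h2
    have h4 : Λ 0 * (Λ 0 ^ 2 * η 0) = Λ 0 ^ 3 * η 0 := by ring
    linarith
  have hη1 : Λ 0 * η 0 ≤ 1 / 1024 := by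
    refine le_trans (mul_le_mul_of_nonneg_right ?_ h0.hη0.le) hη2
    nlinarith
  have hdiv : 1 / ρ ≤ Λ 0 / 128 := by
    rw [div_le_div_iff₀ hρ0 (by norm_num)]
    linarith
  have hB1 : 2 * ρ ^ A0 / ρ ≤ 1 / 1000 := by
    have h1 : 2 * ρ ^ A0 / ρ = 2 * ρ ^ A0 * (1 / ρ) := by ring
    have h2 : 2 * ρ ^ A0 * (1 / ρ) ≤ 2 * η 0 * (Λ 0 / 128) := by
      apply mul_le_mul _ hdiv (by positivity) (by linarith [h0.hη0])
      linarith
    have h3 : 2 * η 0 * (Λ 0 / 128) = (Λ 0 * η 0) / 64 := by ring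
    rw [h1]
    linarith
  have hB2 : 16 * ρ ^ A0 / ρ ^ 2 ≤ 1 / 1000 := by
    have h1 : 16 * ρ ^ A0 / ρ ^ 2 = 16 * ρ ^ A0 * (1 / ρ) ^ 2 := by ring
    have h2 : (1 / ρ) ^ 2 ≤ (Λ 0 / 128) ^ 2 := by
      apply pow_le_pow_left₀ (by positivity) hdiv
    have h3 : 16 * ρ ^ A0 * (1 / ρ) ^ 2 ≤ 16 * η 0 * (Λ 0 / 128) ^ 2 := by
      apply mul_le_mul _ h2 (by positivity) (by linarith [h0.hη0])
      linarith
    have h4 : 16 * η 0 * (Λ 0 / 128) ^ 2 = (Λ 0 ^ 2 * η 0) / 1024 := by ring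
    rw [h1]
    linarith
  have hGB : GB g ρ := by
    have hc := hcau.2.2.2.2 g (ρ ^ A0) ρ hρ0 hρ1 hg.diff hgb
    exact ⟨hg, fun p hp => ((hc p hp).1).trans hB1, fun p hp => ((hc p hp).2.1).trans hB1,
      fun p hp => ((hc p hp).2.2).trans hB2⟩
  refine ⟨hGB, ?_⟩
  -- the invariant
  let Inv : ℕ → St → Prop := fun n S =>
    Ok S (r n) (s n) (∑ k ∈ Finset.range n, (Λ k)^10 * η k) ∧
      ∀ p ∈ Dom (r n - δ n) (s n), ‖Err g S p‖ ≤ η n
  have hinit : Inv 0 S0 := by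
    refine ⟨by simpa using ok_S0 (r 0) (s 0), ?_⟩
    intro p hp
    rw [err_S0]
    refine (hgb p ?_).trans hA0
    obtain ⟨h1, h2, h3, h4⟩ := hp
    have hs1 := h0.hs1
    have hd1 := h0.hδ1
    have hd0 := h0.hδ0
    exact ⟨by linarith, by linarith, by linarith, by linarith⟩
  have hnext : ∀ n S, Inv n S → ∃ S', Inv (n+1) S' ∧
      Clo S S' (r (n+1)) (s (n+1)) ((Λ n)^10 * η n) := by
    rintro n S ⟨hok, herr⟩
    have hc : ∑ k ∈ Finset.range n, (Λ k)^10 * η k ≤ ρ/64 := by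
      have := hcb n
      linarith
    obtain ⟨S', h1, h2, h3⟩ := hstep ρ (r n) (s n) (δ n) (Λ n) (η n) (M n) (hprm n) g hGB hper S
      _ hok hc herr
    refine ⟨S', ⟨?_, ?_⟩, ?_⟩
    · rw [Finset.sum_range_succ, hr, hs]
      exact h1
    · intro p hp
      refine (h3 p ?_).trans (hη n)
      have e1 : r (n+1) - δ (n+1) = r n - 17/2 * δ n := by
        rw [hr, hδ]; ring
      rw [e1, hs] at hp
      exact hp
    · rw [hr, hs]
      exact h2
  choose! F hF1 hF2 using hnext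
  let S : ℕ → St := fun n => Nat.rec S0 (fun n T => F n T) n
  have hS0 : S 0 = S0 := rfl
  have hS1 : ∀ n, S (n+1) = F n (S n) := fun n => rfl
  have hInv : ∀ n, Inv n (S n) := by
    intro n
    induction n with
    | zero => exact hinit
    | succ n ih => rw [hS1]; exact hF1 n _ ih
  refine ⟨S, r, s, δ, Λ, η, M, hprm, fun n => (hInv n).1, hcb, fun n => ?_, fun n => (hInv n).2,
    hsum⟩
  rw [hS1]
  exact hF2 n _ (hInv n)

end Pool.Agent.Helper3.TW
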